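import Mathlib

set_option autoImplicit false

namespace Pool.Agent.Results.MP_f8e877_nt.PosedConjFalse

open Finset

/-- `T_n(b,c)`, by its explicit formula. -/
def T (n : ℕ) (b c : ℤ) : ℤ :=
  ∑ j ∈ range (n / 2 + 1), (n.choose (2 * j) : ℤ) * ((2 * j).choose j : ℤ) * b ^ (n - 2 * j) * c ^ j

/-- `A_k = C(2k,k) C(3k,k)`. -/
def A (k : ℕ) : ℚ := ((2 * k).choose k : ℚ) * ((3 * k).choose k : ℚ)

/-- `B_k = C(2k,k)^2`. -/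
def B (k : ℕ) : ℚ := ((2 * k).choose k : ℚ) ^ 2

/-- `u_k = T_k(18,1) / 512^k`. -/
def u (k : ℕ) : ℚ := (T k 18 1 : ℚ) / (512 : ℚ) ^ k

/-- `v_k = T_{3k}(6,1) / (-512)^k`. -/
def v (k : ℕ) : ℚ := (T (3 * k) 6 1 : ℚ) / (-512 : ℚ) ^ k

/-- Congruence modulo `p^2` in the ring of rationals with denominator prime to `p`. -/
def Cong (p : ℕ) (x y : ℚ) : Prop := ∃ r : ℚ, ¬ (p ∣ r.den) ∧ x - y = (p : ℚ) ^ 2 * r

/-- `S`. -/
def S (p : ℕ) : ℚ := ∑ k ∈ range p, A k * u k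

/-- `S'`. -/
def S' (p : ℕ) : ℚ := ∑ k ∈ range p, A k * v k

/-- Part (a). -/
def PartA (p : ℕ) : Prop :=
  Cong p (S p) ((jacobiSym 10 p : ℚ) * S' p) ∧
  (jacobiSym p 5 = 1 ∧ jacobiSym p 7 = 1 →
    ∀ x y : ℤ, 4 * (p : ℤ) = x ^ 2 + 35 * y ^ 2 → Cong p (S p) ((x : ℚ) ^ 2 - 2 * p)) ∧
  (jacobiSym p 5 = -1 ∧ jacobiSym p 7 = -1 →
    ∀ x y : ℤ, 4 * (p : ℤ) = 5 * x ^ 2 + 7 * y ^ 2 → Cong p (S p) (2 * p - 5 * (x : ℚ) ^ 2)) ∧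
  (jacobiSym p 35 = -1 → Cong p (S p) 0)

/-- Part (b). -/
def PartB (p : ℕ) : Prop :=
  Cong p (∑ k ∈ range p, (35 * (k : ℚ) + 9) * (A k * u k))
    (9 / 2 * p * (7 - 5 * (jacobiSym p 5 : ℚ)))

/-- Part (c), with the factor `B_k`, as posed. -/
def PartC (p : ℕ) : Prop :=
  Cong p (∑ k ∈ range p, (35 * (k : ℚ) + 9) * (B k * v k))
    (9 / 32 * p * (jacobiSym 2 p : ℚ) * (25 + 7 * (jacobiSym p 7 : ℚ)))

lemma part_c_fails : ¬ PartC 11 := by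
  unfold PartC Cong
  rintro ⟨r, hr, h⟩
  have h2 : jacobiSym 2 11 = -1 := by norm_num
  have h7 : jacobiSym (11 : ℕ) 7 = 1 := by norm_num
  rw [h2, h7] at h
  have h3 : r = ((∑ k ∈ range 11, (35 * (k : ℚ) + 9) * (B k * v k)) -
      (9 / 32 * ((11 : ℕ) : ℚ) * (((-1 : ℤ)) : ℚ) * (25 + 7 * ((1 : ℤ) : ℚ)))) / 121 := by
    rw [h]
    push_cast
    ring
  apply hr
  rw [h3]
  decide +kernel

/-- The negated form of Q1: for some prime `p > 7` at least one of (a), (b), (c) fails. -/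
theorem result : ∃ p : ℕ, p.Prime ∧ 7 < p ∧ ¬ (PartA p ∧ PartB p ∧ PartC p) :=
  ⟨11, by norm_num, by norm_num, fun h => part_c_fails h.2.2⟩

end Pool.Agent.Results.MP_f8e877_nt.PosedConjFalse
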